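import Pool.Agent.H24.RCN.Targets

set_option autoImplicit false

open NumberField Pool.Agent.H24.RCN

namespace Pool.Agent.H68.RCN

theorem tor_iff {L : Type} [Field L] [NumberField L] (u : (𝓞 L)ˣ) :
    u ∈ Units.torsion L ↔ Tor ((u : 𝓞 L) : L) := by
  rw [Units.torsion, CommGroup.mem_torsion, isOfFinOrder_iff_pow_eq_one]
  constructor
  · rintro ⟨n, hn, h⟩
    refine ⟨n, hn, ?_⟩
    have h1 := congrArg (fun v : (𝓞 L)ˣ => ((v : 𝓞 L) : L)) h
    simpa using h1
  · rintro ⟨n, hn, h⟩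
    refine ⟨n, hn, ?_⟩
    apply Units.ext
    apply RingOfIntegers.ext
    simpa using h

theorem pf_MOD : T_MOD := by
  intro L _ _
  let c : (𝓞 L)ˣ → Additive ((𝓞 L)ˣ ⧸ (Units.torsion L)) := fun u =>
    Additive.ofMul (QuotientGroup.mk u)
  have hsurj : Function.Surjective c := by
    intro m
    obtain ⟨u, hu⟩ := QuotientGroup.mk_surjective (Additive.toMul m)
    exact ⟨u, by change Additive.ofMul (QuotientGroup.mk u) = m; rw [hu]; rfl⟩
  have hzero : ∀ u, c u = 0 ↔ u ∈ Units.torsion L := by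
    intro u
    change Additive.ofMul (QuotientGroup.mk u : (𝓞 L)ˣ ⧸ (Units.torsion L)) = 0 ↔ _
    rw [ofMul_eq_zero, QuotientGroup.eq_one_iff]
  refine ⟨Additive ((𝓞 L)ˣ ⧸ (Units.torsion L)), inferInstance, inferInstance, inferInstance, c,
    ⟨hsurj, fun u v => rfl, fun u => (hzero u).trans (tor_iff u)⟩, Units.finrank_modTorsion L, ?_⟩
  intro g
  have hg : Units.torsion L ≤ (Units.torsion L).comap g := by
    intro u hu
    rw [Subgroup.mem_comap]
    rw [Units.torsion, CommGroup.mem_torsion] at hu ⊢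
    exact g.isOfFinOrder hu
  let G : (𝓞 L)ˣ ⧸ (Units.torsion L) →* (𝓞 L)ˣ ⧸ (Units.torsion L) :=
    QuotientGroup.map _ _ g hg
  refine ⟨(MonoidHom.toAdditive G).toIntLinearMap, fun u => ?_⟩
  rfl

end Pool.Agent.H68.RCN
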